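import Pool.Agent.R142.Pol300

/-!
# An equivelar self-dual polyhedron without a polarity

There is a finite self-dual abstract polyhedron that is equivelar of type `{5, 5}` and none of whose
dualities has period 2. It has 30 vertices, 75 edges and 30 faces (300 flags). It is a five-fold
covering of the regular polyhedron `{5, 5}_3` (the hemi-great-dodecahedron with group `A_5`).
-/

set_option autoImplicit false

namespace Pool.Agent.Results.MP_1940b6_co.NoPolarity

/-- Two flags (maximal chains) are adjacent if they differ in exactly one face. -/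
def Adj {P : Type} [PartialOrder P] (A B : Flag P) : Prop :=
  ∃ F ∈ A, ∃ G ∈ B, F ≠ G ∧ (A : Set P) \ {F} = (B : Set P) \ {G}

/-- The partially ordered set `P` with rank function `rk` is an abstract polyhedron (abstract
polytope of rank 3): there are a least face (of rank `-1`) and a greatest face (of rank `3`), every
flag contains exactly one face of each rank `-1, 0, 1, 2, 3`, the poset is strongly flag-connected,
and it satisfies the diamond condition. -/
structure IsPolyhedron {P : Type} [PartialOrder P] (rk : P → ℤ) : Prop where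
  strictMono : StrictMono rk
  least : ∃ F, rk F = -1 ∧ ∀ G, F ≤ G
  greatest : ∃ F, rk F = 3 ∧ ∀ G, G ≤ F
  flag_rank : ∀ (Φ : Flag P) (i : ℤ), -1 ≤ i → i ≤ 3 → ∃! F, F ∈ Φ ∧ rk F = i
  connected : ∀ Φ Ψ : Flag P,
    Relation.ReflTransGen (fun A B => Adj A B ∧ ∀ F ∈ Φ, F ∈ Ψ → F ∈ A ∧ F ∈ B) Φ Ψ
  diamond : ∀ F G, F < G → rk G = rk F + 2 → {H | F < H ∧ H < G}.ncard = 2

/-- The polyhedron is equivelar of type `{p, q}`: every 2-face is a `p`-gon (it has exactly `p`
vertices) and every vertex-figure is a `q`-gon (its vertices, the edges containing the vertex, are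
exactly `q` in number). -/
def IsEquivelar {P : Type} [PartialOrder P] (rk : P → ℤ) (p q : ℕ) : Prop :=
  (∀ F, rk F = 2 → {v | v < F ∧ rk v = 0}.ncard = p) ∧
  (∀ v, rk v = 0 → {e | v < e ∧ rk e = 1}.ncard = q)

/-- A duality of `P`: a bijection that reverses the order. -/
def IsDuality {P : Type} [PartialOrder P] (δ : P ≃ P) : Prop := ∀ F G, F ≤ G ↔ δ G ≤ δ F

/-- There is a finite equivelar self-dual polyhedron (of type `{5, 5}`) without a polarity. -/
theorem result : ∃ (P : Type) (_ : PartialOrder P) (rk : P → ℤ),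
    Finite P ∧ IsPolyhedron rk ∧ IsEquivelar rk 5 5 ∧ (∃ δ : P ≃ P, IsDuality δ) ∧
      ∀ δ : P ≃ P, IsDuality δ → ¬ ∀ F, δ (δ F) = F := by
  let T := Pool.Agent.R142.Pol300.T
  refine ⟨Pool.Agent.R142.PolyBuild.Face T, inferInstance, Pool.Agent.R142.PolyBuild.rk, ?_, ?_,
    ⟨?_, ?_⟩, Pool.Agent.R142.Pol300.duality, ?_⟩
  · let g : Pool.Agent.R142.PolyBuild.Face T → Option (Option (Fin 30 ⊕ Fin 75 ⊕ Fin 30)) :=
      fun F => match F with
        | .bot => none
        | .top => some none
        | .v x => some (some (Sum.inl x))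
        | .e x => some (some (Sum.inr (Sum.inl x)))
        | .f x => some (some (Sum.inr (Sum.inr x)))
    refine Finite.of_injective g ?_
    intro F G h
    cases F <;> cases G <;> simp [g] at h ⊢ <;> exact h
  · have h := T.isPolytope
    exact ⟨h.strictMono, h.least, h.greatest, h.flag_rank, h.connected, h.diamond⟩
  · intro F hF
    cases F with
    | f k =>
      rw [← Pool.Agent.R142.Pol300.ncard_vertices k]
      congr 1
      ext H
      constructor
      · rintro ⟨h1, h2⟩
        refine ⟨lt_of_le_of_ne (T.bot_le H) ?_, h1, h2⟩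
        rintro rfl
        simp [Pool.Agent.R142.PolyBuild.rk] at h2
      · rintro ⟨-, h1, h2⟩
        exact ⟨h1, h2⟩
    | _ => simp [Pool.Agent.R142.PolyBuild.rk] at hF
  · intro F hF
    cases F with
    | v k =>
      rw [← Pool.Agent.R142.Pol300.ncard_edges k]
      congr 1
      ext H
      constructor
      · rintro ⟨h1, h2⟩
        refine ⟨h1, lt_of_le_of_ne (T.le_top H) ?_, h2⟩
        rintro rfl
        simp [Pool.Agent.R142.PolyBuild.rk] at h2
      · rintro ⟨h1, -, h2⟩
        exact ⟨h1, h2⟩
    | _ => simp [Pool.Agent.R142.PolyBuild.rk] at hF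
  · intro δ hδ hcon
    obtain ⟨x, hx⟩ := Pool.Agent.R142.Pol300.no_pol δ hδ
    exact hx (hcon x)

end Pool.Agent.Results.MP_1940b6_co.NoPolarity
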